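import Mathlib
import Pool.Agent.Q257.Sep.Main

/-!
# Non-hyperbolic Cayley graphs with logarithmic, and arbitrarily slow, separation profile

For every function `f` tending to infinity there is a finitely generated group `G`, with a finite
generating set `S`, such that the Cayley graph of `G` with respect to `S` (connected, locally finite,
vertex-transitive) has separation profile at most `f n` for all large `n`, at most `C log n` for all
`n ≥ 2`, and is not hyperbolic.

The group is inaccessible: it is the limit of a sequence of virtually free groups
`H_0 → H_1 → ...`.  If `H_k = L *_E R`, `E` finite, and `A ≤ L`, `B ≤ R` are finite subgroups which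
contain `E` with index two, then `H_k = L *_A (A *_E B) *_B R`, where `A *_E B` maps onto the infinite
dihedral group with kernel `E`; now `A *_E B` is replaced by a large finite quotient `V`, a subgroup of
the product of a finite group and a large dihedral group, in which `B` has again overgroups of
index two: `H_{k+1} = R *_B (V *_A L)`.  The tree width of the Cayley graph of `H_{k+1}` is bounded
independently of the size of `V`, as `V` is close to a cycle (files `TW`, `Dih`, `InsB`), and
`H_k → H_{k+1}` is injective on a ball as large as we like (file `Step`).  The limit has long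
isometric cycles, given by the shortest elements of the kernel of `H_k → G` (file `Hyp`).
-/

set_option autoImplicit false

namespace Pool.Agent.Results.MP_fe703c_gt.SlowSeparation

open Filter

/-- The Cayley graph of `G` with respect to `S`: distinct `x`, `y` are adjacent if `x y⁻¹ ∈ S` or
`y x⁻¹ ∈ S`. -/
def cayley (G : Type) [Group G] (S : Set G) : SimpleGraph G :=
  SimpleGraph.fromRel (fun x y => x * y⁻¹ ∈ S)

/-- `cut Λ`, for a finite subgraph `Λ`: the least size of a set `S` of vertices of `Λ` such that every
connected component of `Λ - S` has at most half as many vertices as `Λ`. -/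
noncomputable def cut {V : Type} {Γ : SimpleGraph V} (Λ : Γ.Subgraph) : ℕ :=
  sInf {k | ∃ S : Set V, S ⊆ Λ.verts ∧ S.ncard = k ∧
    ∀ c : (Λ.deleteVerts S).coe.ConnectedComponent, 2 * c.supp.ncard ≤ Λ.verts.ncard}

/-- The separation profile: the maximum of `cut Λ` over the subgraphs `Λ` with at most `n`
vertices. -/
noncomputable def sep {V : Type} (Γ : SimpleGraph V) (n : ℕ) : ℕ :=
  sSup {k | ∃ Λ : Γ.Subgraph, Λ.verts.Finite ∧ Λ.verts.ncard ≤ n ∧ k = cut Λ}

/-- A walk is geodesic if its length is the distance of its ends. -/
def IsGeod {V : Type} {Γ : SimpleGraph V} {x y : V} (p : Γ.Walk x y) : Prop :=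
  p.length = Γ.dist x y

/-- Gromov hyperbolicity: there is `δ` such that all geodesic triangles are `δ`-slim. -/
def Hyperbolic {V : Type} (Γ : SimpleGraph V) : Prop :=
  ∃ δ : ℝ, 0 ≤ δ ∧ ∀ (x y z : V) (p : Γ.Walk x y) (q : Γ.Walk y z) (r : Γ.Walk z x),
    IsGeod p → IsGeod q → IsGeod r →
      ∀ v ∈ p.support, ∃ u, (u ∈ q.support ∨ u ∈ r.support) ∧ (Γ.dist v u : ℝ) ≤ δ

/-- For every `f` tending to infinity there is a group `G` with a finite generating set `S` such that
the Cayley graph is connected, locally finite, vertex-transitive, its separation profile is at most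
`f n` for all large `n` and at most `C log n` for all `n ≥ 2`, and it is not hyperbolic. -/
theorem result (f : ℕ → ℕ) (hf : Tendsto f atTop atTop) :
    ∃ (G : Type) (_ : Group G) (S : Finset G), Subgroup.closure (S : Set G) = ⊤ ∧
      (cayley G (S : Set G)).Connected ∧
      (∀ v, ((cayley G (S : Set G)).neighborSet v).Finite) ∧
      (∀ v w : G, ∃ e : cayley G (S : Set G) ≃g cayley G (S : Set G), e v = w) ∧
      (∀ᶠ n in atTop, sep (cayley G (S : Set G)) n ≤ f n) ∧
      (∃ C : ℝ, ∀ n : ℕ, 2 ≤ n → (sep (cayley G (S : Set G)) n : ℝ) ≤ C * Real.log n) ∧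
      ¬ Hyperbolic (cayley G (S : Set G)) :=
  Pool.Agent.Q257.Sep.main f hf

end Pool.Agent.Results.MP_fe703c_gt.SlowSeparation
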